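import Mathlib

/-! MP_64c30f_co: there is a finite connected graph whose cop number exceeds its optimal
pebbling number: the point-line graph `y + b = a x` over the field with 17 elements. -/

namespace Pool.Agent.Results.MP_64c30f_co.GirthFive

variable {V : Type}

/-- A (history dependent) strategy of `k` cops: `σ h i` is the position of cop `i` after the cops
have seen the robber positions in the list `h` (latest first); `σ []` is the initial placement.
It is legal if every cop stays or moves along an edge in each of his moves. -/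
def LegalStrategy (G : SimpleGraph V) {k : ℕ} (σ : List V → Fin k → V) : Prop :=
  ∀ (h : List V) (r : V) (i : Fin k), σ (r :: h) i = σ h i ∨ G.Adj (σ h i) (σ (r :: h) i)

/-- The robber positions `r 0, r 1, ...`: he stays or moves along an edge. -/
def RobberRun (G : SimpleGraph V) (r : ℕ → V) : Prop :=
  ∀ n, r (n + 1) = r n ∨ G.Adj (r n) (r (n + 1))

/-- The list of the first `n` robber positions, latest first. -/
def past (r : ℕ → V) : ℕ → List V
  | 0 => []
  | n + 1 => r n :: past r n

/-- `k` cops have a winning strategy: against every run of the robber some cop occupies the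
vertex of the robber at some time, either before or after the cops' answer to `r n`. -/
def CopsWin (G : SimpleGraph V) (k : ℕ) : Prop :=
  ∃ σ : List V → Fin k → V, LegalStrategy G σ ∧
    ∀ r : ℕ → V, RobberRun G r → ∃ n i, σ (past r n) i = r n ∨ σ (past r (n + 1)) i = r n

/-- The cop number. -/
noncomputable def copNumber (G : SimpleGraph V) : ℕ := sInf {k | CopsWin G k}

/-- A pebbling move from `D` to `D'`: two pebbles are removed from `u` and one is placed on a
neighbour `v`. -/
def Move (G : SimpleGraph V) (D D' : V → ℕ) : Prop :=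
  ∃ u v, G.Adj u v ∧ D' u + 2 = D u ∧ D' v = D v + 1 ∧ ∀ w, w ≠ u → w ≠ v → D' w = D w

/-- `r` is reachable from the distribution `D`. -/
def Reachable (G : SimpleGraph V) (D : V → ℕ) (r : V) : Prop :=
  ∃ D', Relation.ReflTransGen (Move G) D D' ∧ 1 ≤ D' r

/-- The optimal pebbling number. -/
noncomputable def optimalPebbling [Fintype V] (G : SimpleGraph V) : ℕ :=
  sInf {n | ∃ D : V → ℕ, ∑ v, D v = n ∧ ∀ r, Reachable G D r}

/-! ### The lower bound for the cop number -/

/-- Closed neighbourhood relation. -/
def Near (G : SimpleGraph V) (c v : V) : Prop := v = c ∨ G.Adj c v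

/-- Hypothesis: no triangles, no 4-cycles. -/
def Sparse (G : SimpleGraph V) : Prop :=
  (∀ a b c, G.Adj a b → G.Adj b c → G.Adj a c → False) ∧
  (∀ a b c d, G.Adj a b → G.Adj b c → G.Adj a d → G.Adj d c → a ≠ c → b = d)

theorem near_unique {G : SimpleGraph V} (hG : Sparse G) {c v w w' : V} (hc : c ≠ v)
    (h1 : G.Adj v w) (h2 : G.Adj v w') (n1 : Near G c w) (n2 : Near G c w') : w = w' := by
  rcases n1 with n1 | n1
  · rcases n2 with n2 | n2
    · rw [n1, n2]
    · exfalso
      subst n1
      exact hG.1 v w w' h1 n2 h2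
  · rcases n2 with n2 | n2
    · exfalso
      subst n2
      exact hG.1 v w' w h2 n1 h1
    · exact hG.2 v w c w' h1 n1.symm h2 n2.symm (Ne.symm hc)

theorem exists_safe [Fintype V] {G : SimpleGraph V} (hG : Sparse G) {d k : ℕ}
    (hd : ∀ v, ∃ f : Fin d → V, Function.Injective f ∧ ∀ i, G.Adj v (f i)) (hk : k < d)
    (c : Fin k → V) (v : V) (hv : ∀ i, c i ≠ v) :
    ∃ w, G.Adj v w ∧ ∀ i, ¬ Near G (c i) w := by
  by_contra hcon
  push Not at hcon
  obtain ⟨f, hf, hfa⟩ := hd v
  choose g hg using fun i => hcon (f i) (hfa i)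
  have hinj : Function.Injective g := by
    intro i j hij
    apply hf
    have h1 := hg i
    have h2 := hg j
    rw [hij] at h1
    exact near_unique hG (hv (g j)) (hfa i) (hfa j) h1 h2
  have := Fintype.card_le_of_injective g hinj
  simp at this
  omega

theorem not_copsWin [Fintype V] {G : SimpleGraph V} (hG : Sparse G) {d k : ℕ}
    (hd : ∀ v, ∃ f : Fin d → V, Function.Injective f ∧ ∀ i, G.Adj v (f i)) (hk : k < d)
    (hV : k < Fintype.card V) : ¬ CopsWin G k := by
  classical
  rintro ⟨σ, hσ, hwin⟩
  -- the states: robber history with current position on top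
  have step : ∀ (h : List V) (v : V), (∀ i, ¬ Near G (σ h i) v) →
      ∃ w, G.Adj v w ∧ ∀ i, ¬ Near G (σ (v :: h) i) w := by
    intro h v hv
    apply exists_safe hG hd hk
    intro i hi
    apply hv i
    rcases hσ h v i with h1 | h1
    · left; rw [← hi, h1]
    · right; rw [hi] at h1; exact h1
  have start : ∃ v, ∀ i, ¬ Near G (σ [] i) v := by
    have : ∃ v, ∀ i, σ [] i ≠ v := by
      by_contra hcon
      push Not at hcon
      have hs : Function.Surjective (σ []) := fun v => hcon v
      have := Fintype.card_le_of_surjective _ hs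
      simp at this
      omega
    obtain ⟨v, hv⟩ := this
    obtain ⟨w, _, hw⟩ := exists_safe hG hd hk (σ []) v hv
    exact ⟨w, hw⟩
  choose! nx hnx1 hnx2 using step
  obtain ⟨v₀, hv₀⟩ := start
  -- state after n steps: (past, current)
  let S : ℕ → List V × V := fun n => Nat.rec ([], v₀) (fun _ p => (p.2 :: p.1, nx p.1 p.2)) n
  have hS0 : S 0 = ([], v₀) := rfl
  have hS : ∀ n, S (n + 1) = ((S n).2 :: (S n).1, nx (S n).1 (S n).2) := fun n => rfl
  have inv : ∀ n, ∀ i, ¬ Near G (σ (S n).1 i) (S n).2 := by
    intro n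
    induction n with
    | zero => rw [hS0]; exact hv₀
    | succ n ih =>
      rw [hS]
      exact hnx2 _ _ ih
  have hpast : ∀ n, past (fun n => (S n).2) n = (S n).1 := by
    intro n
    induction n with
    | zero => rfl
    | succ n ih =>
      rw [past, ih, hS]
  obtain ⟨n, i, h⟩ := hwin (fun n => (S n).2) (by
    intro n
    right
    simp only [hS]
    exact hnx1 _ _ (inv n))
  rcases h with h | h
  · rw [hpast] at h
    apply inv n i
    left
    exact h.symm
  · rw [hpast, hS] at h
    simp only at h
    apply inv n i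
    rcases hσ (S n).1 (S n).2 i with h1 | h1
    · left; rw [← h1, h]
    · right; rw [h] at h1; exact h1

theorem copsWin_card [Fintype V] (G : SimpleGraph V) : CopsWin G (Fintype.card V) := by
  classical
  let e := Fintype.equivFin V
  refine ⟨fun _ i => e.symm i, fun _ _ _ => Or.inl rfl, fun r _ => ⟨0, e (r 0), Or.inl ?_⟩⟩
  simp

theorem le_copNumber [Fintype V] {G : SimpleGraph V} (hG : Sparse G) {d : ℕ}
    (hd : ∀ v, ∃ f : Fin d → V, Function.Injective f ∧ ∀ i, G.Adj v (f i)) [Nonempty V] :
    d ≤ copNumber G := by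
  have hcard : d ≤ Fintype.card V := by
    obtain ⟨f, hf, _⟩ := hd (Classical.arbitrary V)
    have := Fintype.card_le_of_injective f hf
    simpa using this
  have hmem : CopsWin G (copNumber G) := Nat.sInf_mem (s := {k | CopsWin G k}) ⟨_, copsWin_card G⟩
  by_contra hlt
  push Not at hlt
  exact not_copsWin hG hd hlt (by omega) hmem

/-! ### The upper bound for the optimal pebbling number -/

theorem move_many {G : SimpleGraph V} {u w : V} (h : G.Adj u w) (a : ℕ) :
    ∀ D : V → ℕ, 2 * a ≤ D u → ∃ D', Relation.ReflTransGen (Move G) D D' ∧ D' w = D w + a := by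
  classical
  induction a with
  | zero => exact fun D _ => ⟨D, Relation.ReflTransGen.refl, rfl⟩
  | succ a ih =>
    intro D hD
    let D₁ : V → ℕ := fun x => if x = u then D u - 2 else if x = w then D w + 1 else D x
    have hne : w ≠ u := h.ne'
    have h1 : Move G D D₁ := by
      refine ⟨u, w, h, ?_, ?_, ?_⟩
      · simp only [D₁, if_true]; omega
      · simp only [D₁, if_neg hne, if_true]
      · intro x hx hx'
        simp only [D₁, if_neg hx, if_neg hx']
    have hu : D₁ u = D u - 2 := by simp only [D₁, if_true]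
    have hw : D₁ w = D w + 1 := by simp only [D₁, if_neg hne, if_true]
    obtain ⟨D', hD', hw'⟩ := ih D₁ (by rw [hu]; omega)
    exact ⟨D', Relation.ReflTransGen.head h1 hD', by rw [hw', hw]; omega⟩

theorem reach_walk {G : SimpleGraph V} {u v : V} (p : G.Walk u v) :
    ∀ D : V → ℕ, 2 ^ p.length ≤ D u → Reachable G D v := by
  induction p with
  | nil => exact fun D hD => ⟨D, Relation.ReflTransGen.refl, by simpa using hD⟩
  | cons h p ih =>
    intro D hD
    rw [SimpleGraph.Walk.length_cons, pow_succ] at hD
    obtain ⟨D₁, h1, h2⟩ := move_many h (2 ^ p.length) D (by omega)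
    obtain ⟨D', h3, h4⟩ := ih D₁ (by omega)
    exact ⟨D', h1.trans h3, h4⟩

theorem optimalPebbling_le [Fintype V] {G : SimpleGraph V} (v₀ : V) (m : ℕ)
    (h : ∀ v, ∃ p : G.Walk v₀ v, p.length ≤ m) : optimalPebbling G ≤ 2 ^ m := by
  classical
  apply Nat.sInf_le
  refine ⟨fun x => if x = v₀ then 2 ^ m else 0, by simp, fun r => ?_⟩
  obtain ⟨p, hp⟩ := h r
  apply reach_walk p
  simp only [if_true]
  exact Nat.pow_le_pow_right (by norm_num) hp

/-! ### The graph -/

instance : Fact (Nat.Prime 17) := ⟨by norm_num⟩

/-- The field with 17 elements. -/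
abbrev F := ZMod 17

/-- Vertices: points and lines. -/
abbrev W := (F × F) ⊕ (F × F)

/-- The point `(x, y)` is adjacent to the line `(a, b)` iff `y + b = a x`. -/
def adj : W → W → Prop
  | .inl p, .inr l => p.2 + l.2 = l.1 * p.1
  | .inr l, .inl p => p.2 + l.2 = l.1 * p.1
  | _, _ => False

/-- The point-line graph. -/
def graph : SimpleGraph W where
  Adj := adj
  symm := ⟨by
    rintro (p | l) (q | m) h <;> exact h⟩
  loopless := ⟨by
    rintro (p | l) h <;> exact h⟩

theorem graph_inc (x y a b : F) : graph.Adj (.inl (x, y)) (.inr (a, b)) ↔ y + b = a * x := Iff.rfl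

theorem graph_inc' (x y a b : F) : graph.Adj (.inr (a, b)) (.inl (x, y)) ↔ y + b = a * x := Iff.rfl

theorem not_pp (p q : F × F) : ¬ graph.Adj (.inl p) (.inl q) := id

theorem not_ll (p q : F × F) : ¬ graph.Adj (.inr p) (.inr q) := id

theorem key {x y x' y' a b a' b' : F} (h1 : y + b = a * x) (h2 : y' + b = a * x')
    (h3 : y + b' = a' * x) (h4 : y' + b' = a' * x') : (x, y) = (x', y') ∨ (a, b) = (a', b') := by
  have h : (a - a') * (x - x') = 0 := by linear_combination -h1 + h2 + h3 - h4
  rcases mul_eq_zero.1 h with h | h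
  · right
    have ha : a = a' := sub_eq_zero.1 h
    subst ha
    have : b = b' := by linear_combination h1 - h3
    rw [this]
  · left
    have hx : x = x' := sub_eq_zero.1 h
    subst hx
    have : y = y' := by linear_combination h1 - h2
    rw [this]

theorem sparse : Sparse graph := by
  constructor
  · rintro (p | l) (q | m) (r | n) h1 h2 h3
    · exact h1
    · exact h1
    · exact h3
    · exact h2
    · exact h2
    · exact h3
    · exact h1
    · exact h1
  · rintro (⟨x, y⟩ | ⟨a, b⟩) (⟨x', y'⟩ | ⟨a', b'⟩) (⟨x2, y2⟩ | ⟨a2, b2⟩) (⟨x3, y3⟩ | ⟨a3, b3⟩)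
      h1 h2 h3 h4 hne
    all_goals first
      | exact absurd h1 (not_pp _ _)
      | exact absurd h1 (not_ll _ _)
      | exact absurd h2 (not_pp _ _)
      | exact absurd h2 (not_ll _ _)
      | exact absurd h3 (not_pp _ _)
      | exact absurd h3 (not_ll _ _)
      | exact absurd h4 (not_pp _ _)
      | exact absurd h4 (not_ll _ _)
      | skip
    · rw [graph_inc] at h1 h3
      rw [graph_inc'] at h2 h4
      rcases key h1 h2 h3 h4 with h | h
      · exact absurd (by rw [h]) hne
      · rw [h]
    · rw [graph_inc'] at h1 h3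
      rw [graph_inc] at h2 h4
      rcases key h1 h3 h2 h4 with h | h
      · rw [h]
      · exact absurd (by rw [h]) hne

theorem degree (v : W) : ∃ f : Fin 17 → W, Function.Injective f ∧ ∀ i, graph.Adj v (f i) := by
  have hinj : Function.Injective (fun i : Fin 17 => ((i : ℕ) : F)) := by
    intro i j hij
    have := (ZMod.natCast_eq_natCast_iff' (i : ℕ) (j : ℕ) 17).1 hij
    apply Fin.ext
    omega
  rcases v with ⟨x, y⟩ | ⟨a, b⟩
  · refine ⟨fun i => .inr (((i : ℕ) : F), ((i : ℕ) : F) * x - y), ?_, fun i => ?_⟩
    · intro i j hij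
      apply hinj
      have := Sum.inr.inj hij
      exact (Prod.ext_iff.1 this).1
    · rw [graph_inc]; ring
  · refine ⟨fun i => .inl (((i : ℕ) : F), a * ((i : ℕ) : F) - b), ?_, fun i => ?_⟩
    · intro i j hij
      apply hinj
      have := Sum.inl.inj hij
      exact (Prod.ext_iff.1 this).1
    · rw [graph_inc']; ring

theorem walks (v : W) : ∃ p : graph.Walk (.inl (0, 0)) v, p.length ≤ 4 := by
  rcases v with ⟨x, y⟩ | ⟨a, b⟩
  · by_cases hx : x = 0
    · subst hx
      have e1 : graph.Adj (.inl (0, 0)) (.inr (y, 0)) := by rw [graph_inc]; ring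
      have e2 : graph.Adj (.inr (y, 0)) (.inl (1, y)) := by rw [graph_inc']; ring
      have e3 : graph.Adj (.inl (1, y)) (.inr (0, -y)) := by rw [graph_inc]; ring
      have e4 : graph.Adj (.inr (0, -y)) (.inl (0, y)) := by rw [graph_inc']; ring
      exact ⟨.cons e1 (.cons e2 (.cons e3 (.cons e4 .nil))), le_rfl⟩
    · have e1 : graph.Adj (.inl (0, 0)) (.inr (y / x, 0)) := by rw [graph_inc]; ring
      have e2 : graph.Adj (.inr (y / x, 0)) (.inl (x, y)) := by rw [graph_inc']; field_simp; ring
      exact ⟨.cons e1 (.cons e2 .nil), by simp⟩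
  · have e1 : graph.Adj (.inl (0, 0)) (.inr (a - b, 0)) := by rw [graph_inc]; ring
    have e2 : graph.Adj (.inr (a - b, 0)) (.inl (1, a - b)) := by rw [graph_inc']; ring
    have e3 : graph.Adj (.inl (1, a - b)) (.inr (a, b)) := by rw [graph_inc]; ring
    exact ⟨.cons e1 (.cons e2 (.cons e3 .nil)), by simp⟩

/-- There is a finite connected simple graph whose cop number is larger than its optimal pebbling
number. -/
theorem result : ∃ (V : Type) (_ : Fintype V) (G : SimpleGraph V),
    G.Connected ∧ optimalPebbling G < copNumber G := by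
  refine ⟨W, inferInstance, graph, ?_, ?_⟩
  · rw [SimpleGraph.connected_iff_exists_forall_reachable]
    refine ⟨.inl (0, 0), fun v => ?_⟩
    obtain ⟨p, _⟩ := walks v
    exact ⟨p⟩
  · have h1 := optimalPebbling_le (G := graph) (.inl (0, 0)) 4 walks
    have h2 := le_copNumber sparse degree
    norm_num at h1
    omega

end Pool.Agent.Results.MP_64c30f_co.GirthFive
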